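import Pool.Agent.N126.IS.Stm3
import Pool.Agent.N383.IS.FAM

/-!
# Project IS2 (helper126), part FAM2: one-parameter families of linear forms (helper284)
-/

set_option autoImplicit false

open Pool.Agent.W602.GT LinearAlgebra.Projectivization MvPolynomial Pool.Agent.N126.IS

namespace Pool.Agent.N284.IS

theorem aeval_hom {k K : Type} [Field k] [Field K] [Algebra k K] {n : ℕ}
    {G : MvPolynomial (Fin (n + 1)) k} {d : ℕ} (h : G.IsHomogeneous d) (t : K)
    (z : Fin (n + 1) → K) : aeval (fun j => t * z j) G = t ^ d * aeval z G := by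
  rw [aeval_def, aeval_def, eval₂_eq', eval₂_eq', Finset.mul_sum]
  refine Finset.sum_congr rfl fun e he => ?_
  have h1 : ∑ i, e i = d := by
    have h2 : Finsupp.weight (fun _ => (1 : ℕ)) e = d := h (mem_support_iff.1 he)
    rw [← Finsupp.degree_eq_weight_one, Finsupp.degree_eq_sum] at h2
    exact h2
  have h2 : ∏ i, (t * z i) ^ e i = t ^ d * ∏ i, z i ^ e i := by
    rw [← h1, ← Finset.prod_pow_eq_pow_sum, ← Finset.prod_mul_distrib]
    refine Finset.prod_congr rfl fun i _ => ?_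
    rw [mul_pow]
  rw [h2]
  ring

theorem main_FAM2 (h1 : S_SPEC) (h2 : S_LIN) (h3 : S_CNT2) : S_FAM2 := by
  classical
  intro k0 k K _ _ _ _ _ _ _ _ _ _ s hs htr n N d m ι0 H hH hdim hdN hm P hind μ hμ
  have : CharZero k := charZero_of_injective_algebraMap (algebraMap k0 k).injective
  by_contra hinf
  obtain ⟨p, hpS, hpne⟩ := Pool.Agent.N383.IS.exists_points _ hinf m hm 2
  choose c hc hcV hpc using hpS
  have hcm : ∀ a a', a ≠ a' → ∀ t : k, (fun i => c a i ^ m) ≠ t • fun i => c a' i ^ m := by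
    intro a a' haa t ht
    apply hpne a a' haa
    rw [hpc a, hpc a', Pool.Agent.N383.IS.g_mk, Pool.Agent.N383.IS.g_mk]
    exact (Projectivization.mk_eq_mk_iff' k _ _ _ _).2 ⟨t, ht.symm⟩
  have hex : ∀ a, ∃ v : Fin (n + 1) → K, (∀ i, aeval v (H i) = 0) ∧
      ∀ j, (μ j * algebraMap k K (c a j)) ^ m =
        ∑ i, (∑ r : Fin (2 * N + 3), s ^ (r : ℕ) * algebraMap k K (P r j i)) * v i :=
    fun a => (hcV a).2
  choose v hv hvl using hex
  -- normalisation
  obtain ⟨ν, hν⟩ : ∃ ν : Fin (N + 1) → K, ν = fun j => (μ j / μ 0) ^ m := ⟨_, rfl⟩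
  obtain ⟨w, hw⟩ : ∃ w : Fin 2 → Fin (n + 1) → K, w = fun a i => (μ 0 ^ m)⁻¹ * v a i := ⟨_, rfl⟩
  have hν0 : ν 0 = 1 := by
    rw [hν]
    show (μ 0 / μ 0) ^ m = 1
    rw [div_self (hμ 0), one_pow]
  have hνne : ∀ j, ν j ≠ 0 := by
    intro j
    rw [hν]
    exact pow_ne_zero _ (div_ne_zero (hμ j) (hμ 0))
  have hwz : ∀ a i, aeval (w a) (map (algebraMap k0 k) (H i)) = (0 : K) := by
    intro a i
    rw [aeval_map_algebraMap, hw]
    obtain ⟨D, hD⟩ := hH i
    rw [aeval_hom hD, hv a i, mul_zero]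
  have hwl : ∀ a j, ∑ i, (∑ r : Fin (2 * N + 3), s ^ (r : ℕ) * algebraMap k K (P r j i)) * w a i =
      ν j * algebraMap k K (c a j ^ m) := by
    intro a j
    have e1 := hvl a j
    have e2 : ∑ i, (∑ r : Fin (2 * N + 3), s ^ (r : ℕ) * algebraMap k K (P r j i)) * w a i =
        (μ 0 ^ m)⁻¹ * ∑ i, (∑ r : Fin (2 * N + 3), s ^ (r : ℕ) * algebraMap k K (P r j i)) *
          v a i := by
      rw [Finset.mul_sum]
      refine Finset.sum_congr rfl fun i _ => ?_
      rw [hw]
      ring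
    rw [e2, ← e1, hν, map_pow]
    show (μ 0 ^ m)⁻¹ * (μ j * algebraMap k K (c a j)) ^ m = (μ j / μ 0) ^ m * _
    rw [div_pow, mul_pow]
    ring
  let Wm : Finset K := (Finset.univ.image ν ∪ Finset.univ.image fun i => (ν i)⁻¹) ∪
    Finset.univ.image fun q : Fin 2 × Fin (n + 1) => w q.1 q.2
  obtain ⟨S0, hS0⟩ := h1 k K s hs Wm
    (fun w _ => Pool.Agent.N383.IS.alg_of_trdeg s hs htr w)
  -- specialisations
  have hspec : ∀ σ : k, σ ∉ S0 → ∃ (ν' : Fin (N + 1) → k) (w' : Fin 2 → Fin (n + 1) → k),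
      (∀ i, ν' i ≠ 0) ∧ ν' 0 = 1 ∧ (∀ a i, aeval (w' a) (H i) = 0) ∧
      ∀ a j, ∑ i, (∑ r : Fin (2 * N + 3), σ ^ (r : ℕ) * P r j i) * w' a i =
        ν' j * c a j ^ m := by
    intro σ hσ
    obtain ⟨φ, hφ⟩ := hS0 σ hσ
    let A : Subalgebra k K := Algebra.adjoin k (insert s (Wm : Set K))
    have hνA : ∀ i, ν i ∈ A := fun i => Algebra.subset_adjoin <| Set.mem_insert_of_mem _ <| by
      rw [Finset.mem_coe]
      exact Finset.mem_union_left _ (Finset.mem_union_left _
        (Finset.mem_image_of_mem _ (Finset.mem_univ i)))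
    have hνA' : ∀ i, (ν i)⁻¹ ∈ A := fun i => Algebra.subset_adjoin <| Set.mem_insert_of_mem _ <| by
      rw [Finset.mem_coe]
      exact Finset.mem_union_left _ (Finset.mem_union_right _
        (Finset.mem_image_of_mem (fun i => (ν i)⁻¹) (Finset.mem_univ i)))
    have hwA : ∀ a i, w a i ∈ A := fun a i => Algebra.subset_adjoin <|
      Set.mem_insert_of_mem _ <| by
      rw [Finset.mem_coe]
      exact Finset.mem_union_right _ (Finset.mem_image_of_mem
        (fun q : Fin 2 × Fin (n + 1) => w q.1 q.2) (Finset.mem_univ (a, i)))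
    let sA : A := ⟨s, Algebra.subset_adjoin (Set.mem_insert _ _)⟩
    have hinj : Function.Injective A.val := Subtype.val_injective
    have e : φ sA = σ := hφ
    refine ⟨fun i => φ ⟨ν i, hνA i⟩, fun a i => φ ⟨w a i, hwA a i⟩, fun i => ?_, ?_, fun a i => ?_,
      fun a j => ?_⟩
    · have h : (⟨ν i, hνA i⟩ : A) * ⟨(ν i)⁻¹, hνA' i⟩ = 1 := by
        apply Subtype.ext
        exact mul_inv_cancel₀ (hνne i)
      intro h0
      have := congrArg φ h
      have h0' : φ ⟨ν i, hνA i⟩ = 0 := h0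
      rw [map_mul, map_one, h0', zero_mul] at this
      exact zero_ne_one this
    · have h : (⟨ν 0, hνA 0⟩ : A) = 1 := Subtype.ext hν0
      show φ ⟨ν 0, hνA 0⟩ = 1
      rw [h, map_one]
    · have hAz : aeval (fun i => (⟨w a i, hwA a i⟩ : A)) (map (algebraMap k0 k) (H i)) = 0 := by
        apply hinj
        rw [map_zero, comp_aeval_apply]
        exact hwz a i
      have := congrArg φ hAz
      rw [map_zero, comp_aeval_apply, aeval_map_algebraMap] at this
      exact this
    · have hAz : ∑ i, (∑ r : Fin (2 * N + 3), sA ^ (r : ℕ) * algebraMap k A (P r j i)) *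
          (⟨w a i, hwA a i⟩ : A) = ⟨ν j, hνA j⟩ * algebraMap k A (c a j ^ m) := by
        apply hinj
        rw [map_sum, map_mul]
        have e3 := hwl a j
        rw [show A.val (⟨ν j, hνA j⟩ : A) = ν j from rfl, AlgHom.commutes, ← e3]
        refine Finset.sum_congr rfl fun i _ => ?_
        rw [map_mul, map_sum]
        refine congrArg₂ (· * ·) (Finset.sum_congr rfl fun r _ => ?_) rfl
        rw [map_mul, map_pow, AlgHom.commutes]
        rfl
      have e4 := congrArg φ hAz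
      rw [map_mul, map_sum, AlgHom.commutes] at e4
      have e5 : (algebraMap k k) (c a j ^ m) = c a j ^ m := rfl
      rw [e5] at e4
      rw [← e4]
      refine Finset.sum_congr rfl fun i _ => ?_
      rw [map_mul, map_sum]
      refine congrArg₂ (· * ·) (Finset.sum_congr rfl fun r _ => ?_) rfl
      rw [map_mul, map_pow, AlgHom.commutes, e]
      rfl
  -- the parameters
  have hNI : {a : ℕ | (a : k) ∉ S0}.Infinite := by
    have : ({a : ℕ | (a : k) ∈ S0}).Finite :=
      (S0.finite_toSet).preimage (Nat.cast_injective.injOn)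
    exact this.infinite_compl
  let e := hNI.natEmbedding
  let σ : Fin (2 * N + 3) → ℕ := fun j => (e j : ℕ)
  have hσi : Function.Injective σ := fun a b h =>
    Fin.ext (e.injective (Subtype.ext h))
  have hσS : ∀ j, ((σ j : ℕ) : k) ∉ S0 := fun j => (e j).2
  choose ν' w' hν'ne hν'0 hw'z hw'l using fun j => hspec (σ j : k) (hσS j)
  let A : Matrix (Fin (2 * N + 3)) (Fin (2 * N + 3)) k0 := Matrix.vandermonde fun j => (σ j : k0)
  have hA : IsUnit A.det := by
    rw [isUnit_iff_ne_zero]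
    exact Matrix.det_vandermonde_ne_zero_iff.2 (Nat.cast_injective.comp hσi)
  have hLI := h2 k0 k (Fin (N + 1) × Fin (n + 1)) (2 * N + 3) (fun r q => P r q.1 q.2) hind A hA
  have hb : LinearIndependent k ![fun i => c 0 i ^ m, fun i => c 1 i ^ m] := by
    rw [LinearIndependent.pair_iff]
    intro x y hxy
    have hc1 : (fun i => c 1 i ^ m) ≠ 0 := Pool.Agent.N383.IS.pow_ne (hc 1) m
    by_cases hx : x = 0
    · refine ⟨hx, ?_⟩
      rw [hx, zero_smul, zero_add] at hxy
      exact (smul_eq_zero.1 hxy).resolve_right hc1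
    · exfalso
      apply hcm 0 1 (by decide) (-(x⁻¹ * y))
      have h4 : x • (fun i => c 0 i ^ m) = -(y • fun i => c 1 i ^ m) :=
        eq_neg_of_add_eq_zero_left hxy
      have h5 : (fun i => c 0 i ^ m) = x⁻¹ • (x • fun i => c 0 i ^ m) := by
        rw [smul_smul, inv_mul_cancel₀ hx, one_smul]
      rw [h5, h4, neg_smul, smul_neg, smul_smul]
  refine h3 k0 k n N d ι0 H hdim hdN
    (fun j a i => ∑ r : Fin (2 * N + 3), (σ j : k) ^ (r : ℕ) * P r a i) ?_
    ν' (fun i => c 0 i ^ m) (fun i => c 1 i ^ m) (fun j => w' j 0) (fun j => w' j 1) hν'ne hν'0 hb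
    (fun j i => hw'z j 0 i) (fun j i => hw'z j 1 i)
    (fun j a => ⟨hw'l j 0 a, hw'l j 1 a⟩)
  convert hLI using 1
  funext q
  refine Finset.sum_congr rfl fun l _ => ?_
  have : A q.1 l = (σ q.1 : k0) ^ (l : ℕ) := Matrix.vandermonde_apply _ _ _
  rw [this, map_pow, map_natCast]

end Pool.Agent.N284.IS
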